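import Pool.Agent.N431.PK.LA

set_option autoImplicit false

/-! # Derivations with prescribed values -/

namespace Pool.Agent.N431.PK

open Pool.Agent.W649.ZL Pool.Agent.R684.PN

/-- the property proved in `S_PV` -/
def PVal (p : ℕ) {P : Type} [Group P] (H : Subgroup P) (h₁ h₂ : H) : Prop :=
  ∀ (E G : Type) [Group E] [Finite E] [Group G], IsPGroup p E → ∀ π : E →* G,
    Function.Surjective π → ∀ φ : H →* G, Cts p H φ → ∀ ε₁ ε₂ : E, π ε₁ = φ h₁ → π ε₂ = φ h₂ →
    ∃ ψ : H →* E, Cts p H ψ ∧ π.comp ψ = φ ∧ ψ h₁ = ε₁ ∧ ψ h₂ = ε₂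

/-- cocycles modulo `p ^ k` -/
theorem der_mod (p : ℕ) [hp : Fact p.Prime] (P : Type) [Group P] (H : Subgroup P) (h₁ h₂ : H)
    (hPV : PVal p H h₁ h₂) (G : Type) [Group G] [Finite G] (hG : IsPGroup p G) (q : H →* G)
    (hq : Cts p H q) (k : ℕ) (e₁ e₂ : G → ZMod (p ^ k)) :
    ∃ c : H → G → ZMod (p ^ k), (∀ (g h : H) (x : G), c (g * h) x = c g x + c h ((q g)⁻¹ * x)) ∧
      c h₁ = e₁ ∧ c h₂ = e₂ := by
  classical
  haveI : NeZero (p ^ k) := ⟨pow_ne_zero _ hp.out.ne_zero⟩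
  haveI : Finite (Multiplicative (ZMod (p ^ k))) :=
    Finite.of_equiv (ZMod (p ^ k)) Multiplicative.ofAdd
  let A : Type := G → Multiplicative (ZMod (p ^ k))
  let act : G →* MulAut A := mulAutArrow
  let E : Type := A ⋊[act] G
  haveI : Finite E := Finite.of_equiv (A × G) SemidirectProduct.equivProd.symm
  have hE : IsPGroup p E := by
    obtain ⟨n, hn⟩ := IsPGroup.iff_card.1 hG
    apply IsPGroup.of_card (n := k * Nat.card G + n)
    rw [Nat.card_congr (SemidirectProduct.equivProd (φ := act)), Nat.card_prod, Nat.card_fun,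
      Nat.card_congr (Multiplicative.toAdd (α := ZMod (p ^ k))), Nat.card_zmod, hn, pow_add,
      ← pow_mul]
  obtain ⟨ψ, -, hψ, hψ₁, hψ₂⟩ := hPV E G hE SemidirectProduct.rightHom
    SemidirectProduct.rightHom_surjective q hq
    ⟨fun x => Multiplicative.ofAdd (e₁ x), q h₁⟩ ⟨fun x => Multiplicative.ofAdd (e₂ x), q h₂⟩
    rfl rfl
  have hr : ∀ g, (ψ g).right = q g := fun g => DFunLike.congr_fun hψ g
  refine ⟨fun g x => Multiplicative.toAdd ((ψ g).left x), fun g h x => ?_, ?_, ?_⟩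
  · have h1 : (ψ (g * h)).left = (ψ g).left * act ((ψ g).right) (ψ h).left := by
      rw [map_mul]
      rfl
    simp only [h1, hr]
    rfl
  · funext x
    simp only [hψ₁]
    rfl
  · funext x
    simp only [hψ₂]
    rfl

theorem der_int (p : ℕ) [hp : Fact p.Prime] (P : Type) [Group P] (H : Subgroup P) (h₁ h₂ : H)
    (hPV : PVal p H h₁ h₂) (G : Type) [Group G] [Finite G] (hG : IsPGroup p G) (q : H →* G)
    (hq : Cts p H q) (e₁ e₂ : G → ℤ) :
    ∃ c : H → G → ℚ, (∀ (g h : H) (x : G), c (g * h) x = c g x + c h ((q g)⁻¹ * x)) ∧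
      (∀ x, c h₁ x = e₁ x) ∧ ∀ x, c h₂ x = e₂ x := by
  classical
  let I : Type := H × G
  let J : Type := (H × H × G) ⊕ (Bool × G)
  let ℓ : J → I →₀ ℤ := Sum.elim
    (fun j => Finsupp.single (j.1 * j.2.1, j.2.2) 1 - Finsupp.single (j.1, j.2.2) 1 -
      Finsupp.single (j.2.1, (q j.1)⁻¹ * j.2.2) 1)
    (fun j => Finsupp.single (if j.1 then h₁ else h₂, j.2) 1)
  let b : J → ℤ := Sum.elim (fun _ => 0) (fun j => if j.1 then e₁ j.2 else e₂ j.2)
  have hl : ∀ (R : Type) [CommRing R] (x : I → R) (j : H × H × G),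
      ((ℓ (Sum.inl j)).sum fun i a => (a : R) * x i) = x (j.1 * j.2.1, j.2.2) - x (j.1, j.2.2) -
        x (j.2.1, (q j.1)⁻¹ * j.2.2) := by
    intro R _ x j
    simp only [ℓ, Sum.elim_inl]
    rw [Finsupp.sum_sub_index (by intros; push_cast; ring),
      Finsupp.sum_sub_index (by intros; push_cast; ring), Finsupp.sum_single_index (by simp),
      Finsupp.sum_single_index (by simp), Finsupp.sum_single_index (by simp)]
    simp
  have hr : ∀ (R : Type) [CommRing R] (x : I → R) (j : Bool × G),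
      ((ℓ (Sum.inr j)).sum fun i a => (a : R) * x i) = x (if j.1 then h₁ else h₂, j.2) := by
    intro R _ x j
    simp only [ℓ, Sum.elim_inr]
    rw [Finsupp.sum_single_index (by simp)]
    simp
  obtain ⟨x, hx⟩ := t_LA I J ℓ b p (by
    intro k
    obtain ⟨c, hc, hc1, hc2⟩ := der_mod p P H h₁ h₂ hPV G hG q hq k (fun x => (e₁ x : ZMod (p ^ k)))
      (fun x => (e₂ x : ZMod (p ^ k)))
    refine ⟨fun i => c i.1 i.2, ?_⟩
    rintro (j | j)
    · rw [hl]
      simp only [b, Sum.elim_inl, hc]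
      simp
    · rw [hr]
      rcases j with ⟨t, y⟩
      cases t
      · simp [b, hc2]
      · simp [b, hc1])
  refine ⟨fun g y => x (g, y), fun g h y => ?_, fun y => ?_, fun y => ?_⟩
  · have h1 := hx (Sum.inl (g, h, y))
    rw [hl] at h1
    simp only [b, Sum.elim_inl, Int.cast_zero] at h1
    linarith
  · have h1 := hx (Sum.inr (true, y))
    rw [hr] at h1
    simpa [b] using h1
  · have h1 := hx (Sum.inr (false, y))
    rw [hr] at h1
    simpa [b] using h1

theorem t_DER (p : ℕ) [hp : Fact p.Prime] (P : Type) [Group P] (H : Subgroup P) (h₁ h₂ : H)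
    (hPV : PVal p H h₁ h₂) (G : Type) [Group G] [Finite G] (hG : IsPGroup p G) (q : H →* G)
    (hq : Cts p H q) (e₁ e₂ : G → ℂ) :
    ∃ c : H → G → ℂ, Coc q c ∧ c h₁ = e₁ ∧ c h₂ = e₂ := by
  classical
  haveI := Fintype.ofFinite G
  choose c hc hc1 hc2 using fun g : G => der_int p P H h₁ h₂ hPV G hG q hq (Pi.single g 1) 0
  choose d hd hd1 hd2 using fun g : G => der_int p P H h₁ h₂ hPV G hG q hq 0 (Pi.single g 1)
  refine ⟨fun h x => ∑ g, (e₁ g * (c g h x : ℂ) + e₂ g * (d g h x : ℂ)), ?_, ?_, ?_⟩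
  · intro g h x
    rw [← Finset.sum_add_distrib]
    refine Finset.sum_congr rfl fun y _ => ?_
    rw [hc, hd]
    push_cast
    ring
  · funext x
    simp only [hc1, hd1]
    rw [Finset.sum_eq_single x]
    · simp
    · intro y _ hy
      simp [Pi.single_apply, hy.symm]
    · simp
  · funext x
    simp only [hc2, hd2]
    rw [Finset.sum_eq_single x]
    · simp
    · intro y _ hy
      simp [Pi.single_apply, hy.symm]
    · simp

end Pool.Agent.N431.PK
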