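import Pool.Agent.N431.PK.Main
import Pool.Agent.N531.PK.Root

set_option autoImplicit false

/-! # Parafree groups: the abelian case and the final theorem -/

namespace Pool.Agent.N431.PK

open Pool.Agent.W649.ZL Pool.Agent.R684.PN

theorem pow_mem_zpowers {P : Type} [Group P] (htf : ∀ x : P, IsOfFinOrder x → x = 1) (a c : P)
    (hac : a * c = c * a) (m n : ℤ) (hm : m ≠ 0) (hmn : c ^ m = a ^ n) (K : ℕ)
    (hK : ∀ (b : P) (k : ℕ), b ^ k = a → k ≤ K) : c ^ K.factorial ∈ Subgroup.zpowers a := by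
  have hcom : Commute a c := hac
  obtain ⟨g, hg⟩ : ∃ g : ℕ, g = Int.gcd m n := ⟨_, rfl⟩
  have hg0 : 0 < g := by rw [hg]; exact Int.gcd_pos_of_ne_zero_left n hm
  obtain ⟨m', hm'⟩ : (g : ℤ) ∣ m := by rw [hg]; exact Int.gcd_dvd_left m n
  obtain ⟨n', hn'⟩ : (g : ℤ) ∣ n := by rw [hg]; exact Int.gcd_dvd_right m n
  have hco : ∃ u v : ℤ, u * m' + v * n' = 1 := by
    have h1 : (g : ℤ) = m * Int.gcdA m n + n * Int.gcdB m n := by
      rw [hg]; exact Int.gcd_eq_gcd_ab m n
    refine ⟨Int.gcdA m n, Int.gcdB m n, ?_⟩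
    have h2 : (g : ℤ) ≠ 0 := by exact_mod_cast hg0.ne'
    apply mul_left_cancel₀ h2
    generalize Int.gcdA m n = A at *
    generalize Int.gcdB m n = B at *
    calc (g : ℤ) * (A * m' + B * n') = (g * m') * A + (g * n') * B := by ring
      _ = g * 1 := by rw [← hm', ← hn', ← h1, mul_one]
  obtain ⟨u, v, huv⟩ := hco
  have h1 : c ^ m' = a ^ n' := by
    have h2 : (c ^ m' * (a ^ n')⁻¹) ^ g = 1 := by
      have h3 : Commute (c ^ m') (a ^ n')⁻¹ := ((hcom.symm.zpow_zpow m' n')).inv_right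
      rw [h3.mul_pow, inv_pow, ← zpow_natCast, ← zpow_natCast, ← zpow_mul, ← zpow_mul,
        mul_comm m', mul_comm n', ← hm', ← hn', hmn, mul_inv_cancel]
    have h3 := htf _ (isOfFinOrder_iff_pow_eq_one.2 ⟨g, hg0, h2⟩)
    exact mul_inv_eq_one.1 h3
  have hm0 : m' ≠ 0 := by rintro rfl; simp at hm'; exact hm hm'
  have hd : (a ^ u * c ^ v) ^ m' = a := by
    rw [(hcom.zpow_zpow u v).mul_zpow, ← zpow_mul, ← zpow_mul, mul_comm v, zpow_mul c, h1,
      ← zpow_mul, ← zpow_add]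
    have : u * m' + n' * v = 1 := by linarith
    rw [this, zpow_one]
  have hle : m'.natAbs ≤ K := by
    rcases Int.natAbs_eq m' with h | h
    · apply hK (a ^ u * c ^ v)
      rw [← zpow_natCast, ← h, hd]
    · apply hK (a ^ u * c ^ v)⁻¹
      have h4 : ((m'.natAbs : ℕ) : ℤ) = -m' := by omega
      rw [← zpow_natCast, h4, inv_zpow, zpow_neg, inv_inv, hd]
  have h5 : c ^ m'.natAbs ∈ Subgroup.zpowers a := by
    rcases Int.natAbs_eq m' with h | h
    · rw [← zpow_natCast, ← h, h1]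
      exact Subgroup.zpow_mem_zpowers a n'
    · have h4 : ((m'.natAbs : ℕ) : ℤ) = -m' := by omega
      rw [← zpow_natCast, h4, zpow_neg, h1]
      exact Subgroup.inv_mem _ (Subgroup.zpow_mem_zpowers a n')
  obtain ⟨w, hw⟩ : m'.natAbs ∣ K.factorial := Nat.dvd_factorial (Int.natAbs_pos.2 hm0) hle
  rw [hw, pow_mul]
  exact Subgroup.pow_mem _ h5 w

theorem abelian_case (P X : Type) [Group P] (hP : SameLCQ P X) (hR : ResNil P) (C : Subgroup P)
    (hC : ∀ x ∈ C, ∀ y ∈ C, x * y = y * x) (a : P) (ha : a ∈ C) (ha1 : a ≠ 1) :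
    (Subgroup.zpowers a).relIndex C ≠ 0 := by
  classical
  haveI : Fact (Nat.Prime 2) := ⟨Nat.prime_two⟩
  have htf : ∀ x : P, IsOfFinOrder x → x = 1 := tf 2 P (t_LPF P X hP 2)
    (Pool.Agent.N433.PK.t_RPF Pool.Agent.N433.PK.t_RES P X hP hR 2)
  obtain ⟨K, hK⟩ := Pool.Agent.N531.PK.t_ROOT P X hP hR a ha1
  have h1 : ∀ c ∈ C, c ^ K.factorial ∈ Subgroup.zpowers a := by
    intro c hc
    obtain ⟨m, n, hm, hmn⟩ := Pool.Agent.N531.PK.t_COM P X hP hR a c ha1 (hC a ha c hc)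
    exact pow_mem_zpowers htf a c (hC a ha c hc) m n hm hmn K hK
  let f : C →* Subgroup.zpowers a :=
    { toFun := fun c => ⟨(c : P) ^ K.factorial, h1 c c.2⟩
      map_one' := by
        apply Subtype.ext
        simp
      map_mul' := fun x y => by
        apply Subtype.ext
        have : Commute (x : P) (y : P) := hC x x.2 y y.2
        exact this.mul_pow _ }
  have hf : Function.Injective f := by
    rw [← MonoidHom.ker_eq_bot_iff, Subgroup.eq_bot_iff_forall]
    intro c hc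
    have h2 : (c : P) ^ K.factorial = 1 := congrArg Subtype.val ((MonoidHom.mem_ker).1 hc)
    apply Subtype.ext
    exact htf _ (isOfFinOrder_iff_pow_eq_one.2 ⟨K.factorial, K.factorial_pos, h2⟩)
  have hcyc : IsCyclic C := isCyclic_of_injective f hf
  obtain ⟨d, hd⟩ := hcyc.exists_generator
  obtain ⟨k, hk⟩ := Subgroup.mem_zpowers_iff.1 (hd ⟨a, ha⟩)
  have hk0 : k ≠ 0 := by
    rintro rfl
    rw [zpow_zero] at hk
    exact ha1 (congrArg Subtype.val hk).symm
  have hk' : (d : P) ^ k = a := congrArg Subtype.val hk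
  have hkpos : 0 < k.natAbs := Int.natAbs_pos.2 hk0
  have hfin : Finite (C ⧸ (Subgroup.zpowers a).subgroupOf C) := by
    apply Finite.of_surjective (fun r : Fin k.natAbs =>
      (QuotientGroup.mk (d ^ (r : ℕ)) : C ⧸ (Subgroup.zpowers a).subgroupOf C))
    intro z
    obtain ⟨c, rfl⟩ := QuotientGroup.mk_surjective z
    obtain ⟨i, rfl⟩ := Subgroup.mem_zpowers_iff.1 (hd c)
    have h3 : 0 ≤ i % k := Int.emod_nonneg i hk0
    have h4 : i % k < k.natAbs := by
      have := Int.emod_lt_abs i hk0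
      rwa [Int.abs_eq_natAbs] at this
    refine ⟨⟨(i % k).toNat, by omega⟩, ?_⟩
    apply QuotientGroup.eq.2
    rw [Subgroup.mem_subgroupOf]
    have h5 : ((d ^ (i % k).toNat)⁻¹ * d ^ i : C) = d ^ (k * (i / k)) := by
      rw [← zpow_natCast, Int.toNat_of_nonneg h3, ← zpow_neg, ← zpow_add]
      congr 1
      have := Int.emod_add_mul_ediv i k
      linarith
    change (((d ^ (i % k).toNat)⁻¹ * d ^ i : C) : P) ∈ Subgroup.zpowers a
    rw [h5, Subgroup.coe_zpow, zpow_mul, hk']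
    exact Subgroup.zpow_mem_zpowers a _
  exact Nat.card_ne_zero.2 ⟨inferInstance, hfin⟩

/-- A finitely generated subgroup `A` of a subgroup `H` of a parafree group has finite index in `H`
if it contains an element `a ≠ 1` such that every conjugate of `a` in `H` has a power in `A`. -/
theorem t_general (P X : Type) [Group P] (hP : SameLCQ P X) (hR : ResNil P) (A H : Subgroup P)
    (hfg : A.FG) (hAH : A ≤ H) (a : P) (ha : a ∈ A) (ha1 : a ≠ 1)
    (hcom : ∀ h ∈ H, ∃ k : ℕ, 0 < k ∧ h⁻¹ * a ^ k * h ∈ A) : A.relIndex H ≠ 0 := by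
  haveI : Fact (Nat.Prime 2) := ⟨Nat.prime_two⟩
  by_cases hna : ∃ x ∈ H, ∃ y ∈ H, x * y ≠ y * x
  · exact main 2 P (t_LPF P X hP 2)
      (Pool.Agent.N433.PK.t_RPF Pool.Agent.N433.PK.t_RES P X hP hR 2) A H hfg hAH hna a ha ha1 hcom
  · push Not at hna
    have h1 := abelian_case P X hP hR H hna a (hAH ha) ha1
    have h2 : Subgroup.zpowers a ≤ A := by
      rw [Subgroup.zpowers_le]; exact ha
    intro h3
    have h4 := Subgroup.relIndex_dvd_of_le_left H h2
    rw [h3] at h4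
    exact h1 (Nat.eq_zero_of_zero_dvd h4)

end Pool.Agent.N431.PK
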