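import Pool.Agent.R684.PN.Stm

set_option autoImplicit false

/-!
# Finitely generated commensurated subgroups of subgroups of parafree groups (MP_f3dc04_al)
Statements of the pieces. `lc`, `SameLCQ`, `ResNil`, `Coc`, `DD`, `UU` are in `R684.PN.Defs`.
-/

namespace Pool.Agent.N431.PK

open Pool.Agent.W649.ZL Pool.Agent.R684.PN

/-- homomorphisms to finite `p`-groups lift through surjections of finite `p`-groups -/
def LP (p : ℕ) (P : Type) [Group P] : Prop := ∀ (E G : Type) [Group E] [Finite E] [Group G],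
  IsPGroup p E → ∀ π : E →* G, Function.Surjective π → ∀ φ : P →* G, ∃ ψ : P →* E, π.comp ψ = φ

/-- residually finite-`p` -/
def RFp (p : ℕ) (P : Type) [Group P] : Prop := ∀ x : P, x ≠ 1 →
  ∃ (Q : Type) (_ : Group Q) (_ : Finite Q) (q : P →* Q), IsPGroup p Q ∧ q x ≠ 1

/-- continuity of a homomorphism on a subgroup `H` of `P` for the topology induced by the
pro-`p` topology of `P` -/
def Cts (p : ℕ) {P G : Type} [Group P] [Group G] (H : Subgroup P) (φ : H →* G) : Prop :=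
  ∃ (Q : Type) (_ : Group Q) (_ : Finite Q) (q : P →* Q), IsPGroup p Q ∧
    ∀ h : H, q h = 1 → φ h = 1

/-- Lifting of continuous homomorphisms on subgroups. -/
def S_WR : Prop := ∀ (p : ℕ) [Fact p.Prime] (P : Type) [Group P], LP p P → ∀ (H : Subgroup P)
  (E G : Type) [Group E] [Finite E] [Group G], IsPGroup p E → ∀ π : E →* G,
  Function.Surjective π → ∀ φ : H →* G, Cts p H φ → ∃ ψ : H →* E, Cts p H ψ ∧ π.comp ψ = φ

/-- Two independent elements. -/
def S_FR : Prop := ∀ (p : ℕ) [Fact p.Prime] (P : Type) [Group P], RFp p P → ∀ H : Subgroup P,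
  (∃ a b : H, a * b ≠ b * a) → ∃ h₁ h₂ : H, ∀ z₁ z₂ : Multiplicative (ZMod p),
    ∃ χ : H →* Multiplicative (ZMod p), Cts p H χ ∧ χ h₁ = z₁ ∧ χ h₂ = z₂

/-- Parafree groups have the lifting property. -/
def S_LPF : Prop := ∀ (P X : Type) [Group P], SameLCQ P X → ∀ (p : ℕ) [Fact p.Prime], LP p P

/-- Parafree groups are residually finite-`p`. -/
def S_RPF : Prop := S_RES → ∀ (P X : Type) [Group P], SameLCQ P X → ResNil P →
  ∀ (p : ℕ) [Fact p.Prime], RFp p P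

/-- Lifting with prescribed values at `h₁`, `h₂`. -/
def S_PV : Prop := ∀ (p : ℕ) [Fact p.Prime] (P : Type) [Group P] (H : Subgroup P) (h₁ h₂ : H),
  (∀ (E G : Type) [Group E] [Finite E] [Group G], IsPGroup p E → ∀ π : E →* G,
    Function.Surjective π → ∀ φ : H →* G, Cts p H φ → ∃ ψ : H →* E, Cts p H ψ ∧ π.comp ψ = φ) →
  (∀ z₁ z₂ : Multiplicative (ZMod p), ∃ χ : H →* Multiplicative (ZMod p),
    Cts p H χ ∧ χ h₁ = z₁ ∧ χ h₂ = z₂) →
  ∀ (E G : Type) [Group E] [Finite E] [Group G], IsPGroup p E → ∀ π : E →* G,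
    Function.Surjective π → ∀ φ : H →* G, Cts p H φ → ∀ ε₁ ε₂ : E, π ε₁ = φ h₁ → π ε₂ = φ h₂ →
    ∃ ψ : H →* E, Cts p H ψ ∧ π.comp ψ = φ ∧ ψ h₁ = ε₁ ∧ ψ h₂ = ε₂

/-- An integral linear system which is solvable modulo all powers of `p` is solvable over `ℚ`. -/
def S_LA : Prop := ∀ (I J : Type) (ℓ : J → I →₀ ℤ) (b : J → ℤ) (p : ℕ) [Fact p.Prime],
  (∀ k : ℕ, ∃ x : I → ZMod (p ^ k), ∀ j, ((ℓ j).sum fun i a => (a : ZMod (p ^ k)) * x i) =
    (b j : ZMod (p ^ k))) →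
  ∃ x : I → ℚ, ∀ j, ((ℓ j).sum fun i a => (a : ℚ) * x i) = (b j : ℚ)

/-- Roots are bounded. -/
def S_ROOT : Prop := ∀ (P X : Type) [Group P], SameLCQ P X → ResNil P → ∀ a : P, a ≠ 1 →
  ∃ K : ℕ, ∀ (b : P) (k : ℕ), b ^ k = a → k ≤ K

/-- Commuting elements. -/
def S_COM : Prop := ∀ (P X : Type) [Group P], SameLCQ P X → ResNil P → ∀ a b : P, a ≠ 1 →
  a * b = b * a → ∃ m n : ℤ, m ≠ 0 ∧ b ^ m = a ^ n

end Pool.Agent.N431.PK
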