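import Pool.Agent.N431.PK.Stm

set_option autoImplicit false

/-! # Integral linear systems solvable modulo all powers of `p` -/

namespace Pool.Agent.N431.PK

theorem exists_den (J : Type) (c : J →₀ ℚ) : ∃ N : ℕ, N ≠ 0 ∧ ∃ n : J → ℤ, ∀ j, (n j : ℚ) =
    (N : ℚ) * c j := by
  classical
  refine ⟨∏ j ∈ c.support, (c j).den, ?_, ?_⟩
  · exact Finset.prod_ne_zero_iff.2 fun j _ => (c j).den_nz
  · have h : ∀ j, ∃ m : ℤ, (m : ℚ) = ((∏ j ∈ c.support, (c j).den : ℕ) : ℚ) * c j := by
      intro j
      by_cases hj : j ∈ c.support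
      · have h1 : (c j).den ∣ ∏ j ∈ c.support, (c j).den := Finset.dvd_prod_of_mem _ hj
        obtain ⟨m, hm⟩ := h1
        refine ⟨m * (c j).num, ?_⟩
        rw [hm]
        push_cast
        have h2 : ((c j).den : ℚ) * c j = (c j).num := Rat.den_mul_eq_num (c j)
        rw [mul_comm ((c j).den : ℚ) (m : ℚ), mul_assoc, h2]
      · rw [Finsupp.notMem_support_iff] at hj
        exact ⟨0, by rw [hj]; simp⟩
    choose n hn using h
    exact ⟨n, hn⟩

theorem t_LA : S_LA := by
  classical
  intro I J ℓ b p _ h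
  let v : J → (I →₀ ℚ) × ℚ := fun j => ((ℓ j).mapRange (Int.cast : ℤ → ℚ) Int.cast_zero, (b j : ℚ))
  by_cases hmem : ((0 : I →₀ ℚ), (1 : ℚ)) ∈ Submodule.span ℚ (Set.range v)
  · exfalso
    rw [Finsupp.mem_span_range_iff_exists_finsupp] at hmem
    obtain ⟨c, hc⟩ := hmem
    obtain ⟨N, hN, n, hn⟩ := exists_den J c
    have h1 : ∀ i, ∑ j ∈ c.support, n j * ℓ j i = 0 := by
      intro i
      have h2 := congrArg (fun w : (I →₀ ℚ) × ℚ => w.1 i) hc
      simp only [Finsupp.sum, Prod.fst_sum, Finsupp.finsetSum_apply, Finsupp.coe_zero,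
        Pi.zero_apply] at h2
      have h3 : ((∑ j ∈ c.support, n j * ℓ j i : ℤ) : ℚ) = 0 := by
        push_cast
        have h4 : ∀ j ∈ c.support, (n j : ℚ) * (ℓ j i : ℚ) = N * (c j • v j).1 i := by
          intro j _
          rw [hn]
          simp [v, mul_assoc]
        rw [Finset.sum_congr rfl h4, ← Finset.mul_sum, h2, mul_zero]
      exact_mod_cast h3
    have h2 : ∑ j ∈ c.support, n j * b j = N := by
      have h2 := congrArg (fun w : (I →₀ ℚ) × ℚ => w.2) hc
      simp only [Finsupp.sum, Prod.snd_sum] at h2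
      have h3 : ((∑ j ∈ c.support, n j * b j : ℤ) : ℚ) = N := by
        push_cast
        have h4 : ∀ j ∈ c.support, (n j : ℚ) * (b j : ℚ) = N * (c j • v j).2 := by
          intro j _
          rw [hn]
          simp [v, mul_assoc]
        rw [Finset.sum_congr rfl h4, ← Finset.mul_sum, h2, mul_one]
      exact_mod_cast h3
    have h5 : ∀ k : ℕ, (p ^ k) ∣ N := by
      intro k
      obtain ⟨x, hx⟩ := h k
      let T : Finset I := c.support.biUnion fun j => (ℓ j).support
      have h6 : ∀ j ∈ c.support, ((ℓ j).sum fun i a => (a : ZMod (p ^ k)) * x i) =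
          ∑ i ∈ T, (ℓ j i : ZMod (p ^ k)) * x i := by
        intro j hj
        apply Finsupp.sum_of_support_subset
        · exact Finset.subset_biUnion_of_mem (fun j => (ℓ j).support) hj
        · intro i _
          simp
      have h7 : ((N : ℤ) : ZMod (p ^ k)) = 0 := by
        rw [← h2]
        push_cast
        calc ∑ j ∈ c.support, (n j : ZMod (p ^ k)) * (b j : ZMod (p ^ k))
            = ∑ j ∈ c.support, ∑ i ∈ T, (n j : ZMod (p ^ k)) * ((ℓ j i : ZMod (p ^ k)) * x i) := by
              refine Finset.sum_congr rfl fun j hj => ?_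
              rw [← hx j, h6 j hj, Finset.mul_sum]
          _ = ∑ i ∈ T, ((∑ j ∈ c.support, n j * ℓ j i : ℤ) : ZMod (p ^ k)) * x i := by
              rw [Finset.sum_comm]
              refine Finset.sum_congr rfl fun i _ => ?_
              push_cast
              rw [Finset.sum_mul]
              exact Finset.sum_congr rfl fun j _ => by ring
          _ = 0 := by
              refine Finset.sum_eq_zero fun i _ => ?_
              rw [h1 i]
              simp
      have h8 : ((N : ℕ) : ZMod (p ^ k)) = 0 := by exact_mod_cast h7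
      exact (ZMod.natCast_eq_zero_iff _ _).1 h8
    have h9 := h5 N
    have h10 : N < p ^ N := Nat.lt_pow_self (Fact.out : p.Prime).one_lt
    exact absurd (Nat.le_of_dvd (Nat.pos_of_ne_zero hN) h9) (by omega)
  · obtain ⟨f, hf, hfW⟩ := Submodule.exists_le_ker_of_notMem hmem
    refine ⟨fun i => - (f (Finsupp.single i 1, 0)) / f (0, 1), fun j => ?_⟩
    have h1 : f (v j) = 0 := hfW (Submodule.subset_span ⟨j, rfl⟩)
    have h2 : v j = ((ℓ j).mapRange (Int.cast : ℤ → ℚ) Int.cast_zero, (0 : ℚ)) +
        (b j : ℚ) • ((0 : I →₀ ℚ), (1 : ℚ)) := by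
      ext <;> simp [v]
    have h3 : ∀ u : I →₀ ℚ, f (u, 0) = u.sum fun i a => a * f (Finsupp.single i 1, 0) := by
      intro u
      have h4 : f (u, 0) = (f.comp (LinearMap.inl ℚ (I →₀ ℚ) ℚ)) u := rfl
      rw [h4]
      conv_lhs => rw [← Finsupp.sum_single u]
      rw [map_finsuppSum]
      refine Finsupp.sum_congr fun i _ => ?_
      have h5 : Finsupp.single i (u i) = (u i) • Finsupp.single i (1 : ℚ) := by simp
      rw [h5, map_smul, smul_eq_mul]
      rfl
    rw [h2, map_add, map_smul, h3, Finsupp.sum_mapRange_index (by simp)] at h1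
    have h6 : ((ℓ j).sum fun i a => (a : ℚ) * (-(f (Finsupp.single i 1, 0)) / f (0, 1))) =
        - ((ℓ j).sum fun i a => (a : ℚ) * f (Finsupp.single i 1, 0)) / f (0, 1) := by
      simp only [Finsupp.sum]
      rw [← Finset.sum_neg_distrib, Finset.sum_div]
      exact Finset.sum_congr rfl fun i _ => by ring
    rw [h6]
    rw [smul_eq_mul] at h1
    field_simp
    linarith

end Pool.Agent.N431.PK
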