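import Pool.Agent.N431.PK.Stm

set_option autoImplicit false

/-! # Parafree groups have the lifting property -/

namespace Pool.Agent.N431.PK

open Pool.Agent.W649.ZL Pool.Agent.R684.PN

theorem lc_kill {A B : Type} [Group A] [Group B] {n : ℕ} (hB : lc B n = ⊥) (f : A →* B) :
    ∀ x ∈ lc A n, f x = 1 := by
  intro x hx
  have h1 : f x ∈ lc B n := by
    have h2 : (lc A n).map f ≤ lc B n := by
      rw [lc, Subgroup.map_lowerCentralSeries]
      exact Subgroup.lowerCentralSeries_mono n le_top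
    exact h2 ⟨x, hx, rfl⟩
  rw [hB] at h1
  exact Subgroup.mem_bot.1 h1

theorem lc_bot_of_surj {A B : Type} [Group A] [Group B] {n : ℕ} (hA : lc A n = ⊥) (f : A →* B)
    (hf : Function.Surjective f) : lc B n = ⊥ := by
  have h := Subgroup.map_lowerCentralSeries (⊤ : Subgroup A) f n
  have h1 : (⊤ : Subgroup A).map f = ⊤ := by
    rw [← MonoidHom.range_eq_map]
    exact MonoidHom.range_eq_top.2 hf
  rw [h1] at h
  change (⊤ : Subgroup B).lowerCentralSeries n = ⊥
  rw [← h]
  change ((lc A n).map f) = ⊥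
  rw [hA, Subgroup.map_bot]

theorem t_LPF : S_LPF := by
  intro P X _ hP p _ E G _ _ _ hE π hπ φ
  have hnil : Group.IsNilpotent E := hE.isNilpotent
  obtain ⟨n, hn⟩ := Subgroup.nilpotent_iff_lowerCentralSeries.1 hnil
  have hG : lc G n = ⊥ := lc_bot_of_surj hn π hπ
  obtain ⟨e⟩ := hP n
  let φ' : P ⧸ lc P n →* G := QuotientGroup.lift (lc P n) φ (lc_kill hG φ)
  let θ : FreeGroup X →* G :=
    (φ'.comp e.symm.toMonoidHom).comp (QuotientGroup.mk' (lc (FreeGroup X) n))
  choose s hs using fun x : X => hπ (θ (FreeGroup.of x))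
  let θ' : FreeGroup X →* E := FreeGroup.lift s
  have hθ : π.comp θ' = θ := by
    apply FreeGroup.ext_hom
    intro x
    simp only [θ', MonoidHom.comp_apply, FreeGroup.lift_apply_of, hs]
  let θ'' : FreeGroup X ⧸ lc (FreeGroup X) n →* E :=
    QuotientGroup.lift (lc (FreeGroup X) n) θ' (lc_kill hn θ')
  refine ⟨(θ''.comp e.toMonoidHom).comp (QuotientGroup.mk' (lc P n)), ?_⟩
  ext x
  have h1 : ∀ y : FreeGroup X ⧸ lc (FreeGroup X) n, π (θ'' y) = φ' (e.symm y) := by
    intro y
    obtain ⟨z, rfl⟩ := QuotientGroup.mk_surjective y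
    have := DFunLike.congr_fun hθ z
    exact this
  change π (θ'' (e (QuotientGroup.mk x))) = φ x
  rw [h1, MulEquiv.symm_apply_apply]
  rfl

end Pool.Agent.N431.PK
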