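import Pool.Agent.N431.PK.Stm

set_option autoImplicit false

/-! # Lifting with prescribed values -/

namespace Pool.Agent.N431.PK

open Pool.Agent.W649.ZL Pool.Agent.R684.PN

/-- a nontrivial normal subgroup of a finite `p`-group contains a central element of order `p` -/
theorem exists_central {p : ℕ} [Fact p.Prime] {E : Type} [Group E] [Finite E] (hE : IsPGroup p E)
    (N : Subgroup E) [N.Normal] (hN : N ≠ ⊥) : ∃ z ∈ N, orderOf z = p ∧ ∀ g, g * z = z * g := by
  have hN' : Nontrivial N := (Subgroup.nontrivial_iff_ne_bot N).2 hN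
  have dvd : p ∣ Nat.card N := by
    obtain ⟨n, hn0, hn⟩ := (hE.to_subgroup N).nontrivial_iff_card.mp inferInstance
    exact hn.symm ▸ dvd_pow_self _ (ne_of_gt hn0)
  have h1 := (hE.of_equiv ConjAct.toConjAct).exists_fixed_point_of_prime_dvd_card_of_fixed_point N
    dvd (a := 1) (by intro g; exact smul_one g)
  obtain ⟨b, hb, hb1⟩ := h1
  have hbc : ∀ g : E, g * b = b * g := by
    intro g
    have h2 := congrArg Subtype.val (hb (ConjAct.toConjAct g))
    rw [ConjAct.Subgroup.val_conj_smul, ConjAct.toConjAct_smul] at h2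
    rw [mul_inv_eq_iff_eq_mul] at h2
    exact h2
  obtain ⟨k, hk⟩ := (IsPGroup.iff_orderOf.1 hE) (b : E)
  have hk0 : k ≠ 0 := by
    rintro rfl
    rw [pow_zero, orderOf_eq_one_iff] at hk
    exact hb1 (Subtype.ext hk.symm)
  refine ⟨(b : E) ^ p ^ (k - 1), N.pow_mem b.2 _, ?_, fun g => ?_⟩
  · have hp : p ^ k = p ^ (k - 1) * p := by
      rw [← pow_succ, Nat.sub_add_cancel (Nat.one_le_iff_ne_zero.2 hk0)]
    rw [orderOf_pow_of_dvd (pow_ne_zero _ (Fact.out : p.Prime).ne_zero) (by rw [hk, hp]; exact dvd_mul_right _ _),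
      hk, hp, Nat.mul_div_cancel_left _ (pow_pos (Fact.out : p.Prime).pos _)]
  · have : Commute g (b : E) := hbc g
    exact (this.pow_right _).eq

theorem Cts_comp {p : ℕ} {P G E : Type} [Group P] [Group G] [Group E] {H : Subgroup P}
    {φ : H →* G} (h : Cts p H φ) (f : G →* E) : Cts p H (f.comp φ) := by
  obtain ⟨Q, i1, i2, q, hQ, hq⟩ := h
  exact ⟨Q, i1, i2, q, hQ, fun x hx => by rw [MonoidHom.comp_apply, hq x hx, map_one]⟩

theorem t_PV : S_PV := by
  intro p _ P _ H h₁ h₂ hlift hind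
  have key : ∀ (n : ℕ) (E G : Type) [Group E] [Finite E] [Group G], Nat.card E ≤ n →
      IsPGroup p E → ∀ π : E →* G,
    Function.Surjective π → ∀ φ : H →* G, Cts p H φ → ∀ ε₁ ε₂ : E, π ε₁ = φ h₁ → π ε₂ = φ h₂ →
    ∃ ψ : H →* E, Cts p H ψ ∧ π.comp ψ = φ ∧ ψ h₁ = ε₁ ∧ ψ h₂ = ε₂ := by
    intro n
    induction n with
    | zero =>
      intro E G _ _ _ hcard
      exact absurd (Nat.card_pos (α := E)) (by omega)
    | succ n ih =>
      intro E G _ _ _ hcard hE π hπ φ hφ ε₁ ε₂ hε₁ hε₂
      by_cases hker : π.ker = ⊥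
      · obtain ⟨ψ, hψ, hψ'⟩ := hlift E G hE π hπ φ hφ
        have hinj := (MonoidHom.ker_eq_bot_iff π).1 hker
        refine ⟨ψ, hψ, hψ', hinj ?_, hinj ?_⟩
        · rw [hε₁, ← hψ']; rfl
        · rw [hε₂, ← hψ']; rfl
      · obtain ⟨z, hz, hzp, hzc⟩ := exists_central hE π.ker hker
        let Z := Subgroup.zpowers z
        have hZc : ∀ w ∈ Z, ∀ g, g * w = w * g := by
          intro w hw g
          obtain ⟨m, rfl⟩ := Subgroup.mem_zpowers_iff.1 hw
          have : Commute g z := hzc g
          exact (this.zpow_right m).eq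
        have hZn : Z.Normal := ⟨fun w hw g => by
          rw [hZc w hw g, mul_inv_cancel_right]; exact hw⟩
        have hZcard : Nat.card Z = p := by rw [Nat.card_zpowers, hzp]
        have hp1 : 1 < p := (Fact.out : p.Prime).one_lt
        have hcard' : Nat.card (E ⧸ Z) ≤ n := by
          have h1 := Subgroup.card_eq_card_quotient_mul_card_subgroup Z
          rw [hZcard] at h1
          have h2 : 0 < Nat.card (E ⧸ Z) := Nat.card_pos
          have h3 : Nat.card (E ⧸ Z) * 2 ≤ Nat.card (E ⧸ Z) * p := Nat.mul_le_mul_left _ hp1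
          omega
        let π' : E ⧸ Z →* G := QuotientGroup.lift Z π (fun w hw => by
          obtain ⟨m, rfl⟩ := Subgroup.mem_zpowers_iff.1 hw
          exact π.ker.zpow_mem hz m)
        have hπ' : Function.Surjective π' := fun g => by
          obtain ⟨x, hx⟩ := hπ g
          exact ⟨QuotientGroup.mk x, hx⟩
        obtain ⟨ψ₀, hψ₀, hψ₀', hψ₁, hψ₂⟩ := ih (E ⧸ Z) G hcard' (hE.to_quotient Z) π' hπ' φ hφ
          (QuotientGroup.mk ε₁) (QuotientGroup.mk ε₂) hε₁ hε₂
        obtain ⟨ψ', hψ', hψ''⟩ := hlift E (E ⧸ Z) hE (QuotientGroup.mk' Z)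
          (QuotientGroup.mk'_surjective Z) ψ₀ hψ₀
        have hval : ∀ (h : H) (ε : E), ψ₀ h = QuotientGroup.mk ε → (ψ' h)⁻¹ * ε ∈ Z := by
          intro h ε hh
          rw [← QuotientGroup.eq]
          rw [← hh, ← hψ'']
          rfl
        let ι : Multiplicative (ZMod p) ≃* Z := mulEquivOfPrimeCardEq (p := p) (by
          rw [Nat.card_congr (Multiplicative.toAdd (α := ZMod p)), Nat.card_zmod]) hZcard
        obtain ⟨χ, hχ, hχ₁, hχ₂⟩ := hind (ι.symm ⟨_, hval h₁ ε₁ hψ₁⟩) (ι.symm ⟨_, hval h₂ ε₂ hψ₂⟩)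
        let ψ : H →* E :=
          { toFun := fun h => ψ' h * (ι (χ h) : E)
            map_one' := by simp
            map_mul' := fun a b => by
              rw [map_mul, map_mul, map_mul, Subgroup.coe_mul]
              have := hZc _ (ι (χ a)).2 (ψ' b)
              calc ψ' a * ψ' b * ((ι (χ a) : E) * (ι (χ b) : E))
                  = ψ' a * (ψ' b * (ι (χ a) : E)) * (ι (χ b) : E) := by group
                _ = ψ' a * ((ι (χ a) : E) * ψ' b) * (ι (χ b) : E) := by rw [this]
                _ = _ := by group }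
        have hψa : ∀ h, ψ h = ψ' h * (ι (χ h) : E) := fun h => rfl
        refine ⟨ψ, ?_, ?_, ?_, ?_⟩
        · obtain ⟨Q, i1, i2, q, hQ, hq⟩ := hψ'
          obtain ⟨Q', i1', i2', q', hQ', hq'⟩ := hχ
          refine ⟨Q × Q', inferInstance, inferInstance, q.prod q', ?_, ?_⟩
          · intro x
            obtain ⟨a, ha⟩ := hQ x.1
            obtain ⟨b, hb⟩ := hQ' x.2
            refine ⟨a + b, ?_⟩
            ext
            · rw [Prod.pow_fst, pow_add, pow_mul, ha, one_pow]; rfl
            · rw [Prod.pow_snd, pow_add, mul_comm, pow_mul, hb, one_pow]; rfl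
          · intro x hx
            have h1 : q x = 1 := congrArg Prod.fst hx
            have h2 : q' x = 1 := congrArg Prod.snd hx
            rw [hψa, hq x h1, hq' x h2]
            simp
        · ext h
          have h1 : π (ι (χ h) : E) = 1 := by
            obtain ⟨m, hm⟩ := Subgroup.mem_zpowers_iff.1 (ι (χ h)).2
            rw [← hm, map_zpow, (MonoidHom.mem_ker).1 hz, one_zpow]
          have h2 : π (ψ' h) = φ h := by
            have h3 : π' (QuotientGroup.mk (ψ' h)) = π (ψ' h) := rfl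
            have h4 : (QuotientGroup.mk (ψ' h) : E ⧸ Z) = ψ₀ h := by
              rw [← hψ'']; rfl
            rw [← h3, h4, ← hψ₀']
            rfl
          rw [MonoidHom.comp_apply, hψa, map_mul, h1, mul_one, h2]
        · rw [hψa, hχ₁, MulEquiv.apply_symm_apply, mul_inv_cancel_left]
        · rw [hψa, hχ₂, MulEquiv.apply_symm_apply, mul_inv_cancel_left]
  intro E G _ _ _
  exact key (Nat.card E) E G le_rfl

end Pool.Agent.N431.PK
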