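import Pool.Agent.N431.PK.DER
import Pool.Agent.N431.PK.PV
import Pool.Agent.N431.PK.LPF
import Pool.Agent.N431.PK.Injg
import Pool.Agent.R928.PNCLO
import Pool.Agent.R787.PNOP
import Pool.Agent.R372.VG.LIMG
import Pool.Agent.N433.PK.Res
import Pool.Agent.N697.PK.CMP
import Pool.Agent.N271.PK.WR
import Pool.Agent.N362.PK.FR
import Pool.Agent.N572.PK.FIN

set_option autoImplicit false

/-! # Finitely generated commensurated subgroups -/

namespace Pool.Agent.N431.PK

open Pool.Agent.W649.ZL Pool.Agent.R684.PN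

theorem prod_pgroup {p : ℕ} {Q Q' : Type} [Group Q] [Group Q'] (hQ : IsPGroup p Q)
    (hQ' : IsPGroup p Q') : IsPGroup p (Q × Q') := by
  intro x
  obtain ⟨a, ha⟩ := hQ x.1
  obtain ⟨b, hb⟩ := hQ' x.2
  refine ⟨a + b, ?_⟩
  ext
  · rw [Prod.pow_fst, pow_add, pow_mul, ha, one_pow]; rfl
  · rw [Prod.pow_snd, pow_add, mul_comm, pow_mul, hb, one_pow]; rfl

/-- `P` is torsion-free if it has the lifting property and is residually finite-`p`. -/
theorem tf (p : ℕ) [hp : Fact p.Prime] (P : Type) [Group P] (hLP : LP p P) (hR : RFp p P) (x : P)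
    (hx : IsOfFinOrder x) : x = 1 := by
  by_contra hx1
  obtain ⟨Q, i1, i2, q, hQ, hq⟩ := hR x hx1
  obtain ⟨k, hk⟩ := (IsPGroup.iff_orderOf.1 hQ) (q x)
  have hk0 : k ≠ 0 := by
    rintro rfl
    rw [pow_zero, orderOf_eq_one_iff] at hk
    exact hq hk
  have hdvd : p ∣ orderOf x := by
    have h1 : orderOf (q x) ∣ orderOf x := orderOf_map_dvd q x
    rw [hk] at h1
    exact (dvd_pow_self p hk0).trans h1
  have hpos : 0 < orderOf x := hx.orderOf_pos
  obtain ⟨y, hy⟩ : ∃ y : P, orderOf y = p := by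
    obtain ⟨m, hm⟩ := hdvd
    have hm0 : m ≠ 0 := by rintro rfl; omega
    refine ⟨x ^ m, ?_⟩
    rw [orderOf_pow_of_dvd hm0 ⟨p, by rw [hm, mul_comm]⟩, hm,
      Nat.mul_div_cancel _ (Nat.pos_of_ne_zero hm0)]
  have hy1 : y ≠ 1 := by
    rintro rfl
    rw [orderOf_one] at hy
    exact hp.out.one_lt.ne hy
  obtain ⟨Q', i1', i2', q', hQ', hq'⟩ := hR y hy1
  let H : Subgroup P := Subgroup.zpowers y
  have hcard : Nat.card H = p := by rw [Nat.card_zpowers, hy]
  have hcard' : Nat.card (Multiplicative (ZMod p)) = p := by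
    rw [Nat.card_congr (Multiplicative.toAdd (α := ZMod p)), Nat.card_zmod]
  let ι : H ≃* Multiplicative (ZMod p) := mulEquivOfPrimeCardEq (p := p) hcard hcard'
  haveI : NeZero (p ^ 2) := ⟨pow_ne_zero _ hp.out.ne_zero⟩
  haveI : Finite (Multiplicative (ZMod (p ^ 2))) :=
    Finite.of_equiv (ZMod (p ^ 2)) Multiplicative.ofAdd
  let π₀ : ZMod (p ^ 2) →+* ZMod p := ZMod.castHom (dvd_pow_self p two_ne_zero) (ZMod p)
  let π : Multiplicative (ZMod (p ^ 2)) →* Multiplicative (ZMod p) := AddMonoidHom.toMultiplicative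
    π₀.toAddMonoidHom
  have hπ : Function.Surjective π := fun z => by
    obtain ⟨w, hw⟩ := ZMod.ringHom_surjective π₀ (Multiplicative.toAdd z)
    exact ⟨Multiplicative.ofAdd w, by
      change Multiplicative.ofAdd (π₀ w) = z
      rw [hw]; rfl⟩
  have hE : IsPGroup p (Multiplicative (ZMod (p ^ 2))) := by
    apply IsPGroup.of_card (n := 2)
    rw [Nat.card_congr (Multiplicative.toAdd (α := ZMod (p ^ 2))), Nat.card_zmod]
  have hc : Cts p H ι.toMonoidHom := by
    refine ⟨Q', i1', i2', q', hQ', fun h hh => ?_⟩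
    obtain ⟨j, hj⟩ := Subgroup.mem_zpowers_iff.1 h.2
    have h1 : q' y ^ j = 1 := by rw [← map_zpow, hj]; exact hh
    have h2 : orderOf (q' y) = p := by
      have h3 : orderOf (q' y) ∣ p := hy ▸ orderOf_map_dvd q' y
      rcases (Nat.dvd_prime hp.out).1 h3 with h4 | h4
      · rw [orderOf_eq_one_iff] at h4
        exact absurd h4 hq'
      · exact h4
    have h3 : ((orderOf (q' y) : ℕ) : ℤ) ∣ j := orderOf_dvd_iff_zpow_eq_one.2 h1
    have h4 : y ^ j = 1 := by
      apply orderOf_dvd_iff_zpow_eq_one.1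
      rw [hy, ← h2]
      exact h3
    have h5 : h = 1 := Subtype.ext (by rw [← hj, h4]; rfl)
    rw [h5]
    simp
  obtain ⟨ψ, -, hψ⟩ := Pool.Agent.N271.PK.t_WR p P hLP H _ _ hE π hπ ι.toMonoidHom hc
  let y' : H := ⟨y, Subgroup.mem_zpowers y⟩
  have hy' : y' ^ p = 1 := by
    apply Subtype.ext
    change y ^ p = 1
    rw [← hy, pow_orderOf_eq_one]
  have h1 : (ψ y') ^ p = 1 := by rw [← map_pow, hy', map_one]
  have h2 : (p : ZMod (p ^ 2)) * Multiplicative.toAdd (ψ y') = 0 := by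
    have h3 := congrArg Multiplicative.toAdd h1
    rw [toAdd_pow, toAdd_one, nsmul_eq_mul] at h3
    exact h3
  have h3 : π (ψ y') = 1 := by
    obtain ⟨w, hw⟩ : ∃ w : ℕ, (w : ZMod (p ^ 2)) = Multiplicative.toAdd (ψ y') :=
      ⟨_, ZMod.natCast_zmod_val _⟩
    rw [← hw] at h2
    have h4 : ((p * w : ℕ) : ZMod (p ^ 2)) = 0 := by push_cast; exact h2
    rw [ZMod.natCast_eq_zero_iff, pow_two] at h4
    have h5 : p ∣ w := Nat.dvd_of_mul_dvd_mul_left hp.out.pos h4
    change Multiplicative.ofAdd (π₀ (Multiplicative.toAdd (ψ y'))) = 1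
    rw [← hw, map_natCast, (ZMod.natCast_eq_zero_iff w p).2 h5]
    rfl
  have h4 : ι y' = 1 := by
    have h5 := DFunLike.congr_fun hψ y'
    rw [MonoidHom.comp_apply, h3] at h5
    exact h5.symm
  have h5 : y' = 1 := ι.injective (by rw [h4, map_one])
  exact hy1 (congrArg Subtype.val h5)

/-- A finitely generated group has a finite family of elements which generates it as a monoid. -/
theorem exists_gen (H : Type) [Group H] (hH : Group.FG H) : ∃ (n : ℕ) (σ : Fin n → H),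
    ∀ g : H, ∃ L : List (Fin n), (L.map σ).prod = g := by
  obtain ⟨S, hS, hfin⟩ := (Monoid.fg_iff (M := H)).1 (Group.fg_iff_monoid_fg.1 hH)
  haveI := hfin.to_subtype
  obtain ⟨n, ⟨e⟩⟩ := Finite.exists_equiv_fin S
  refine ⟨n, fun i => (e.symm i : H), fun g => ?_⟩
  have hg : g ∈ Submonoid.closure S := by rw [hS]; trivial
  obtain ⟨l, hl, rfl⟩ := Submonoid.exists_list_of_mem_closure hg
  clear hg
  induction l with
  | nil => exact ⟨[], by simp⟩
  | cons a l ih =>
    obtain ⟨L, hL⟩ := ih (fun y hy => hl y (List.mem_cons_of_mem _ hy))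
    refine ⟨e ⟨a, hl a List.mem_cons_self⟩ :: L, ?_⟩
    rw [List.map_cons, List.prod_cons, List.prod_cons, hL]
    simp

theorem exists_ne_one (p : ℕ) [hp : Fact p.Prime] (P : Type) [Group P] (hR : RFp p P)
    (D : Finset P) : ∃ (Q : Type) (_ : Group Q) (_ : Finite Q) (q : P →* Q), IsPGroup p Q ∧
      ∀ x ∈ D, x ≠ 1 → q x ≠ 1 := by
  classical
  induction D using Finset.induction_on with
  | empty =>
    exact ⟨Unit, inferInstance, inferInstance, 1, fun x => ⟨0, rfl⟩, by simp⟩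
  | insert a D _ ih =>
    obtain ⟨Q, i1, i2, q, hQ, hq⟩ := ih
    by_cases ha : a = 1
    · refine ⟨Q, i1, i2, q, hQ, fun x hx hx1 => ?_⟩
      rcases Finset.mem_insert.1 hx with rfl | hx
      · exact absurd ha hx1
      · exact hq x hx hx1
    · obtain ⟨Q', i1', i2', q', hQ', hq'⟩ := hR a ha
      refine ⟨Q × Q', inferInstance, inferInstance, q.prod q', prod_pgroup hQ hQ',
        fun x hx hx1 => ?_⟩
      rcases Finset.mem_insert.1 hx with rfl | hx
      · intro h; exact hq' (congrArg Prod.snd h)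
      · intro h; exact hq x hx hx1 (congrArg Prod.fst h)

theorem exists_inj (p : ℕ) [hp : Fact p.Prime] (P : Type) [Group P] (hR : RFp p P)
    (T : Finset P) : ∃ (Q : Type) (_ : Group Q) (_ : Finite Q) (q : P →* Q), IsPGroup p Q ∧
      Set.InjOn q T := by
  classical
  obtain ⟨Q, i1, i2, q, hQ, hq⟩ := exists_ne_one p P hR ((T ×ˢ T).image fun z => z.1⁻¹ * z.2)
  refine ⟨Q, i1, i2, q, hQ, fun x hx y hy hxy => ?_⟩
  by_contra hne
  refine hq (x⁻¹ * y) (Finset.mem_image.2 ⟨(x, y), Finset.mem_product.2 ⟨hx, hy⟩, rfl⟩) ?_ ?_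
  · intro h; exact hne (inv_mul_eq_one.1 h)
  · rw [map_mul, map_inv, hxy, inv_mul_cancel]

theorem lower (p : ℕ) [hp : Fact p.Prime] (P : Type) [Group P] (hLP : LP p P) (hR : RFp p P)
    (H : Subgroup P) (hna : ∃ a b : H, a * b ≠ b * a) (hfg : Group.FG H) :
    ∃ (n : ℕ) (σ : Fin n → H), (∀ g : H, ∃ L : List (Fin n), (L.map σ).prod = g) ∧
      ∀ L₀ : List (Fin n), 1 ≤ vd (UU σ (MonoidHom.id H) {L₀}) := by
  classical
  obtain ⟨h₁, h₂, hind⟩ := Pool.Agent.N362.PK.t_FR p P hR H hna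
  obtain ⟨n₀, σ₀, hσ₀⟩ := exists_gen H hfg
  have hPV : PVal p H h₁ h₂ := t_PV p P H h₁ h₂ (Pool.Agent.N271.PK.t_WR p P hLP H) hind
  let σ : Fin (n₀ + 2) → H := Fin.cons h₁ (Fin.cons h₂ σ₀)
  refine ⟨n₀ + 2, σ, fun g => ?_, fun L₀ => ?_⟩
  · obtain ⟨L, hL⟩ := hσ₀ g
    refine ⟨L.map fun i => i.succ.succ, ?_⟩
    rw [List.map_map, ← hL]
    rfl
  · refine Pool.Agent.R372.VG.LIMG.t_LIMG H (Fin (n₀ + 2)) σ {L₀} 1 fun T => ?_
    obtain ⟨Q, i1, i2, q, hQ, hq⟩ := exists_inj p P hR (T.image Subtype.val)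
    refine ⟨Q, i1, q.comp H.subtype, ?_, ?_⟩
    · intro x hx y hy hxy
      apply Subtype.ext
      exact hq (Finset.mem_coe.2 (Finset.mem_image_of_mem _ hx))
        (Finset.mem_coe.2 (Finset.mem_image_of_mem _ hy)) hxy
    · refine Pool.Agent.N572.PK.FIN.t_FIN H Q (Fin (n₀ + 2)) σ (q.comp H.subtype) 0 1
        (by simp) L₀ fun e₁ e₂ => ?_
      exact t_DER p P H h₁ h₂ hPV Q hQ (q.comp H.subtype)
        ⟨Q, i1, i2, q, hQ, fun h hh => hh⟩ e₁ e₂

theorem upper (Γ : Type) [Group Γ] (n : ℕ) (σ : Fin n → Γ)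
    (hσ : ∀ g : Γ, ∃ L : List (Fin n), (L.map σ).prod = g)
    (hvd : ∀ L₀ : List (Fin n), 1 ≤ vd (UU σ (MonoidHom.id Γ) {L₀})) (N : Subgroup Γ)
    (S : Finset Γ) (hS : Subgroup.closure (S : Set Γ) = N)
    (a : Γ) (hN : ∀ g : Γ, ∃ k : ℕ, 0 < k ∧ g⁻¹ * a ^ k * g ∈ N)
    (ha : a ∈ N) (ha' : ¬ IsOfFinOrder a) (m : ℕ) (g : Fin m → Γ)
    (hg : ∀ (t t' : Fin m) (h : N), g t * h = g t' → t = t') : m ≤ S.card := by
  classical
  choose W hW using hσ
  let L : S → List (Fin n) := fun j => W j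
  have hL : Subgroup.closure (Set.range fun j => ((L j).map σ).prod) = N := by
    have h1 : (Set.range fun j => ((L j).map σ).prod) = (S : Set Γ) := by
      ext x
      constructor
      · rintro ⟨j, rfl⟩
        simp only [L, hW]
        exact j.2
      · intro hx
        exact ⟨⟨x, hx⟩, by simp only [L, hW]⟩
    rw [h1, hS]
  have hL₀ : ((W a).map σ).prod = a := hW a
  obtain ⟨B, hB⟩ := Pool.Agent.R787.PNOP.t_OP Γ N (Fin n) S σ N.subtype N.subtype_injective L
  obtain ⟨hcl, hinv⟩ := Pool.Agent.R928.PNCLO.t_CLO Γ Γ (Fin n) σ (MonoidHom.id Γ) {W a}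
  have h1 := Pool.Agent.N697.PK.t_CMP Γ N (Fin n) S N.subtype N.subtype_injective
    (UU σ (MonoidHom.id Γ) {W a}) hcl hinv B (fun k f => by
      ext ⟨h, j⟩
      rw [hB, tr_apply, hB, Pool.Agent.R928.PNCLO.DD_tr]
      rfl) (fun f hf hf0 => by
      refine injg σ (fun g => ⟨W g, hW g⟩) N L hL (W a) (by rw [hL₀]; exact hN) (by rw [hL₀]; exact ha)
        (by rw [hL₀]; exact ha') f hf fun n j => ?_
      have h2 := hB f n j
      rw [hf0] at h2
      exact h2.symm) m g (fun t t' h hh => hg t t' h hh)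
  have h2 := hvd (W a)
  have h3 : (m : ℝ) ≤ Fintype.card S := by
    have h4 : (0 : ℝ) ≤ m := Nat.cast_nonneg m
    nlinarith
  have h5 : m ≤ Fintype.card S := by exact_mod_cast h3
  rwa [Fintype.card_coe] at h5

/-- The main theorem, general form. -/
theorem main (p : ℕ) [hp : Fact p.Prime] (P : Type) [Group P] (hLP : LP p P) (hR : RFp p P)
    (A H : Subgroup P) (hfg : A.FG) (hAH : A ≤ H) (hna : ∃ x ∈ H, ∃ y ∈ H, x * y ≠ y * x)
    (a : P) (ha : a ∈ A) (ha1 : a ≠ 1) (hcom : ∀ h ∈ H, ∃ k : ℕ, 0 < k ∧ h⁻¹ * a ^ k * h ∈ A) :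
    A.relIndex H ≠ 0 := by
  classical
  intro hzero
  obtain ⟨S, hS⟩ := hfg
  obtain ⟨x, hx, y, hy, hxy⟩ := hna
  -- coset representatives
  obtain ⟨m, hm⟩ : ∃ m, m = S.card + 1 := ⟨_, rfl⟩
  obtain ⟨g, hgH, hg⟩ : ∃ g : Fin m → P, (∀ t, g t ∈ H) ∧
      ∀ (t t' : Fin m) (h : A), g t * h = g t' → t = t' := by
    have h1 : Nat.card (H ⧸ A.subgroupOf H) = 0 := hzero
    have h2 : Infinite (H ⧸ A.subgroupOf H) := by
      rcases Nat.card_eq_zero.1 h1 with h | h
      · exact absurd h (not_isEmpty_of_nonempty _)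
      · exact h
    let e := (Infinite.natEmbedding (H ⧸ A.subgroupOf H))
    refine ⟨fun t => ((e t).out : H), fun t => ((e t).out : H).2, fun t t' h hh => ?_⟩
    have h3 : (e t) = (e t') := by
      rw [← Quotient.out_eq' (e t), ← Quotient.out_eq' (e t')]
      apply QuotientGroup.eq.2
      rw [Subgroup.mem_subgroupOf]
      change (((e t).out : H) : P)⁻¹ * (((e t').out : H) : P) ∈ A
      have hh' : (((e t).out : H) : P) * (h : P) = (((e t').out : H) : P) := hh
      rw [← hh', inv_mul_cancel_left]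
      exact h.2
    exact Fin.ext (e.injective h3)
  -- the finitely generated subgroup
  let D : Finset P := S ∪ {x, y} ∪ Finset.univ.image g
  let H₀ : Subgroup P := Subgroup.closure (D : Set P)
  have hAH₀ : A ≤ H₀ := by
    rw [← hS]
    apply Subgroup.closure_mono
    intro z hz
    simp only [D, Finset.coe_union]
    exact Or.inl (Or.inl hz)
  have hH₀ : H₀ ≤ H := by
    rw [Subgroup.closure_le]
    intro z hz
    simp only [D, Finset.coe_union, Set.mem_union, Finset.mem_coe, Finset.mem_insert,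
      Finset.mem_singleton, Finset.mem_image, Finset.mem_univ, true_and] at hz
    rcases hz with (hz | rfl | rfl) | ⟨t, rfl⟩
    · apply hAH
      rw [← hS]
      exact Subgroup.subset_closure hz
    · exact hx
    · exact hy
    · exact hgH t
  have hxD : x ∈ H₀ := Subgroup.subset_closure (by simp [D])
  have hyD : y ∈ H₀ := Subgroup.subset_closure (by simp [D])
  have hgD : ∀ t, g t ∈ H₀ := fun t => Subgroup.subset_closure (by simp [D])
  have hfg₀ : Group.FG H₀ := (Group.fg_iff_subgroup_fg H₀).2 ⟨D, rfl⟩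
  obtain ⟨n, σ, hσ, hvd⟩ := lower p P hLP hR H₀ ⟨⟨x, hxD⟩, ⟨y, hyD⟩, fun h => hxy
    (congrArg Subtype.val h)⟩ hfg₀
  let N : Subgroup H₀ := A.subgroupOf H₀
  have hSA : ∀ z ∈ S, z ∈ H₀ := fun z hz => hAH₀ (by
    rw [← hS]; exact Subgroup.subset_closure hz)
  let S₀ : Finset H₀ := S.attach.image fun z => ⟨z.1, hSA z.1 z.2⟩
  have hS₀ : Subgroup.closure (S₀ : Set H₀) = N := by
    apply Subgroup.map_injective H₀.subtype_injective
    rw [Subgroup.subgroupOf_map_subtype, inf_eq_left.2 hAH₀, MonoidHom.map_closure, ← hS]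
    congr 1
    ext z
    simp [S₀]
    intro hz
    exact hSA z hz
  have hcard : S₀.card ≤ S.card := by
    refine Finset.card_image_le.trans ?_
    rw [Finset.card_attach]
  have h1 := upper H₀ n σ hσ hvd N S₀ hS₀ ⟨a, hAH₀ ha⟩ (fun k => by
    obtain ⟨j, hj, hj'⟩ := hcom k (hH₀ k.2)
    exact ⟨j, hj, hj'⟩) ha (fun hf => ha1 (by
    apply tf p P hLP hR a
    exact (Submonoid.isOfFinOrder_coe (x := (⟨a, hAH₀ ha⟩ : H₀))).2 hf)) m (fun t => ⟨g t, hgD t⟩)
    (fun t t' h hh => hg t t' ⟨(h : H₀), h.2⟩ (congrArg Subtype.val hh))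
  omega

end Pool.Agent.N431.PK
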